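import Pool.Agent.N646.BX.All
import Pool.Agent.Y827.HN.Pat
import Pool.Agent.N694.OB.Aff

/-!
Narrow progressions of translates of tuples (helper694): almost cliques for the property of all patterns
along narrow progressions. The coloured theorem is `Pool.Agent.Y827.HN.patRD`, the combinatorial theorem
is `Pool.Agent.N646.AC.wclique` of helper646.
-/

set_option autoImplicit false

namespace Pool.Agent.N694.NB

open Finset Filter Topology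
open Pool.Agent.N646.AC
open Pool.Agent.N646.BX
open Pool.Agent.Y827.GS

open Classical in
/-- one almost complete set of forms, for each large `N` -/
theorem clqN (k : ℕ) (ε : ℝ) (hε : 0 < ε) : ∃ z n₀ : ℕ, ∀ V : Finset (ℤ × ℤ),
    (∀ f ∈ V, 0 < f.1 ∧ IsCoprime f.1 f.2) → AdmF z V → n₀ ≤ V.card →
    ∀ U : Finset (ℤ × ℤ), (∀ u ∈ U, 0 < u.1 ∧ IsCoprime u.1 u.2 ∧ u ∉ V) → ∀ l : ℕ, ∃ C : ℕ,
    ∀ᶠ N : ℕ in atTop, ∃ A ⊆ V, (5 / 18 - ε) * (V.card : ℝ) ≤ (A.card : ℝ) ∧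
      ((exc (k := k) A (fun f => Pool.Agent.Y827.HN.AllP U l C N (univ.image f))).card : ℝ) ≤
        ε * (V.card : ℝ) ^ (k + 1) := by
  choose Kf hKf1 hKf using Pool.Agent.Y827.HN.patRD
  obtain ⟨M, n₀, hcl⟩ := wclique (lam := 18 / 5) (by norm_num) k ε hε 1 le_rfl Kf
  refine ⟨∑ T' ∈ range (M + 1), T' * Kf T', n₀, ?_⟩
  intro V hV hadm hn U hU l
  have hex : ∀ (T' : Fin (M + 1)) (H : Fin (T' : ℕ) → Fin (Kf T') → {x // x ∈ V}), ∃ C : ℕ,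
      1 ≤ (T' : ℕ) → Function.Injective (fun x : Fin (T' : ℕ) × Fin (Kf T') => H x.1 x.2) →
      ∀ᶠ N : ℕ in atTop, ∃ (S : Finset (Fin (T' : ℕ))) (c : Fin (T' : ℕ) → Fin (Kf T')),
        (((T' : ℕ) : ℝ)) ≤ (18 / 5) * (S.card : ℝ) ∧
        Pool.Agent.Y827.HN.AllP U l C N (S.image (fun g => (H g (c g)).1)) := by
    intro T' H
    by_cases h1 : 1 ≤ (T' : ℕ) ∧
        Function.Injective (fun x : Fin (T' : ℕ) × Fin (Kf T') => H x.1 x.2)
    swap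
    · exact ⟨0, fun h2 h3 => absurd ⟨h2, h3⟩ h1⟩
    obtain ⟨h1, h2⟩ := h1
    obtain ⟨C, hC⟩ := hKf T' h1 (fun g i => (H g i).1) (fun x y hxy => h2 (Subtype.ext hxy))
      (fun g i => hV _ (H g i).2) (by
        intro p hp hpT
        obtain ⟨r, hr⟩ := hadm p (hpT.trans (Finset.single_le_sum (f := fun T' => T' * Kf T')
          (fun _ _ => Nat.zero_le _) (mem_range.2 T'.2))) hp
        exact ⟨r, fun g i => hr _ (H g i).2⟩) U (fun u hu =>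
        ⟨(hU u hu).1, (hU u hu).2.1, fun g i h => (hU u hu).2.2 (h ▸ (H g i).2)⟩) l
    exact ⟨C, fun _ _ => hC⟩
  choose Cf hCf using hex
  set C : ℕ := ∑ T' : Fin (M + 1), ∑ H : Fin (T' : ℕ) → Fin (Kf T') → {x // x ∈ V}, Cf T' H with hC
  refine ⟨C, ?_⟩
  have hCle : ∀ (T' : Fin (M + 1)) (H : Fin (T' : ℕ) → Fin (Kf T') → {x // x ∈ V}),
      Cf T' H ≤ C := by
    intro T' H
    refine (single_le_sum (f := fun H => Cf T' H) (fun _ _ => Nat.zero_le _) (mem_univ H)).trans ?_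
    exact single_le_sum (f := fun T' : Fin (M + 1) =>
      ∑ H : Fin (T' : ℕ) → Fin (Kf T') → {x // x ∈ V}, Cf T' H) (fun _ _ => Nat.zero_le _)
      (mem_univ T')
  have hev : ∀ᶠ N : ℕ in atTop, ∀ (T' : Fin (M + 1))
      (H : Fin (T' : ℕ) → Fin (Kf T') → {x // x ∈ V}),
      1 ≤ (T' : ℕ) → Function.Injective (fun x : Fin (T' : ℕ) × Fin (Kf T') => H x.1 x.2) →
      ∃ (S : Finset (Fin (T' : ℕ))) (c : Fin (T' : ℕ) → Fin (Kf T')),
        (((T' : ℕ) : ℝ)) ≤ (18 / 5) * (S.card : ℝ) ∧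
        Pool.Agent.Y827.HN.AllP U l (Cf T' H) N (S.image (fun g => (H g (c g)).1)) := by
    rw [eventually_all]
    intro T'
    rw [eventually_all]
    intro H
    by_cases h1 : 1 ≤ (T' : ℕ) ∧
        Function.Injective (fun x : Fin (T' : ℕ) × Fin (Kf T') => H x.1 x.2)
    swap
    · exact Eventually.of_forall fun x h2 h3 => absurd ⟨h2, h3⟩ h1
    filter_upwards [hCf T' H h1.1 h1.2] with N hN _ _
    exact hN
  filter_upwards [hev, eventually_ge_atTop 3] with N hN hN3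
  obtain ⟨A, hA1, hA2, hA3⟩ := hcl (ℤ × ℤ) V (Pool.Agent.Y827.HN.AllP U l C N) hn
    (fun F F' hF h => Pool.Agent.Y827.HN.AllP_anti hF h) (by
      intro T' hT'1 hT'M H hHV hHinj
      obtain ⟨S, c, hS, hSc⟩ := hN ⟨T', by omega⟩ (fun g i => ⟨H g i, hHV g i⟩) hT'1 (by
        intro x y hxy
        exact hHinj (congrArg Subtype.val hxy))
      exact ⟨S, c, hS, Pool.Agent.Y827.HN.AllP_mono hN3 (hCle _ _) hSc⟩) (fun _ => 1)
    (fun _ _ => ⟨le_rfl, le_rfl⟩)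
  refine ⟨A, hA1, ?_, ?_⟩
  · simp only [sum_const, smul_eq_mul, mul_one] at hA2
    have h5 : (1 : ℝ) / (18 / 5) = 5 / 18 := by norm_num
    rw [h5] at hA2
    exact hA2
  · refine le_trans (le_of_eq ?_) hA3.le
    congr 2

/-- **one family of tuples for all lengths and all radii** -/
theorem clqF (k : ℕ) (ε : ℝ) (hε : 0 < ε) : ∃ z n₀ : ℕ, ∀ V : Finset (ℤ × ℤ),
    (∀ f ∈ V, 0 < f.1 ∧ IsCoprime f.1 f.2) → AdmF z V → n₀ ≤ V.card →
    ∀ U : ℕ → Finset (ℤ × ℤ), Monotone U →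
      (∀ s, ∀ u ∈ U s, 0 < u.1 ∧ IsCoprime u.1 u.2 ∧ u ∉ V) →
    ∃ (A : Finset (ℤ × ℤ)) (G : Finset (Fin (k + 1) → ℤ × ℤ)), A ⊆ V ∧
      (5 / 18 - ε) * (V.card : ℝ) ≤ (A.card : ℝ) ∧
      ((exc (k := k) A (fun f => f ∈ G)).card : ℝ) ≤ ε * (V.card : ℝ) ^ (k + 1) ∧
      ∀ s : ℕ, ∃ C : ℕ, ∃ᶠ N : ℕ in atTop, ∀ f ∈ G,
        Pool.Agent.Y827.HN.AllP (U s) s C N (univ.image f) := by
  classical
  obtain ⟨z, n₀, h⟩ := clqN k ε hε
  refine ⟨z, n₀, fun V hV hadm hn U hUm hU => ?_⟩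
  set P : Finset (Finset (ℤ × ℤ) × Finset (Fin (k + 1) → ℤ × ℤ)) :=
    V.powerset ×ˢ (Fintype.piFinset (fun _ : Fin (k + 1) => V)).powerset with hP
  have h1 : ∀ s : ℕ, ∃ C : ℕ, ∃ p ∈ P, ∃ᶠ N : ℕ in atTop,
      ((5 / 18 - ε) * (V.card : ℝ) ≤ (p.1.card : ℝ) ∧
        ((exc (k := k) p.1 (fun f => f ∈ p.2)).card : ℝ) ≤ ε * (V.card : ℝ) ^ (k + 1)) ∧
        ∀ f ∈ p.2, Pool.Agent.Y827.HN.AllP (U s) s C N (univ.image f) := by
    intro s
    obtain ⟨C, hC⟩ := h V hV hadm hn (U s) (hU s) s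
    refine ⟨C, freq_finset P (fun p N =>
      ((5 / 18 - ε) * (V.card : ℝ) ≤ (p.1.card : ℝ) ∧
        ((exc (k := k) p.1 (fun f => f ∈ p.2)).card : ℝ) ≤ ε * (V.card : ℝ) ^ (k + 1)) ∧
        ∀ f ∈ p.2, Pool.Agent.Y827.HN.AllP (U s) s C N (univ.image f)) ?_⟩
    filter_upwards [hC] with N hN
    obtain ⟨A, hA1, hA2, hA3⟩ := hN
    refine ⟨(A, (Fintype.piFinset (fun _ : Fin (k + 1) => V)).filter
      (fun f => Pool.Agent.Y827.HN.AllP (U s) s C N (univ.image f))), ?_, ⟨hA2, ?_⟩,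
      fun f hf => (mem_filter.1 hf).2⟩
    · rw [hP, mem_product]
      refine ⟨mem_powerset.2 hA1, ?_⟩
      rw [mem_powerset]
      exact filter_subset _ _
    · refine le_trans ?_ hA3
      rw [Nat.cast_le]
      apply card_le_card
      intro f hf
      rw [mem_exc] at hf ⊢
      refine ⟨hf.1, hf.2.1, fun hP => hf.2.2 ?_⟩
      exact mem_filter.2 ⟨Fintype.mem_piFinset.2 fun i => hA1 (hf.1 i), hP⟩
  choose Cs ps hps1 hps2 using h1
  obtain ⟨p, hp, hfr⟩ := freq_finset P (fun p s => ps s = p)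
    (Eventually.of_forall fun s => ⟨ps s, hps1 s, rfl⟩)
  rw [hP, mem_product] at hp
  obtain ⟨s₀, hs₀⟩ := hfr.exists
  have h2 := (hps2 s₀).exists
  rw [hs₀] at h2
  obtain ⟨N₀, ⟨h3, h4⟩, -⟩ := h2
  refine ⟨p.1, p.2, mem_powerset.1 hp.1, h3, h4, fun s => ?_⟩
  obtain ⟨s', hs', hs'p⟩ := (frequently_atTop.1 hfr) s
  refine ⟨Cs s', (hps2 s').mono fun N hN f hf => ?_⟩
  rw [hs'p] at hN
  exact Pool.Agent.Y827.HN.AllP_len (hUm hs') hs' (hN.2 f hf)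

end Pool.Agent.N694.NB
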