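import Pool.Agent.N694.NB.Clq

/-!
Narrow progressions of translates of tuples (helper694): the theorem on boxes of shifts.
-/

set_option autoImplicit false

namespace Pool.Agent.N694.NB

open Finset Filter Topology
open Pool.Agent.N646.AC
open Pool.Agent.N646.BX
open Pool.Agent.Y827.GS

/-- `m ≡ b` modulo `q`, the number `m + d i` is prime exactly for `i ∈ J`, and all primes at distance at most
`R` from `m` are `≡ b` modulo `q` -/
def Pa (q : ℕ) (b : ℤ) (R : ℕ) {k : ℕ} (d : Fin (k + 1) → ℤ) (J : Finset (Fin (k + 1))) (m : ℕ) : Prop :=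
  (m : ℤ) ≡ b [ZMOD q] ∧ (∀ i, ((m : ℤ) + d i).toNat.Prime ↔ i ∈ J) ∧
    ∀ p : ℕ, p.Prime → |(p : ℤ) - m| ≤ R → (p : ℤ) ≡ b [ZMOD q]

open Classical in
/-- the number of the `1 ≤ m ≤ x` with this property at `m, m + D, ..., m + (l - 1) D` -/
noncomputable def cn (q : ℕ) (b : ℤ) (R : ℕ) {k : ℕ} (d : Fin (k + 1) → ℤ) (J : Finset (Fin (k + 1)))
    (l D x : ℕ) : ℕ := ((Icc 1 x).filter (fun m : ℕ => ∀ j < l, Pa q b R d J (m + j * D))).card

/-- all patterns along narrow progressions -/
def GoodN (q : ℕ) (b : ℤ) {k : ℕ} (h : Fin k → ℤ) : Prop :=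
  ∀ l R : ℕ, ∃ C : ℕ, ∃ᶠ x : ℕ in atTop, ∀ J : Finset (Fin (k + 1)), ∃ D : ℕ, 1 ≤ D ∧
    (D : ℝ) ≤ (Real.log x) ^ C ∧
    (x : ℝ) / (Real.log x) ^ C ≤ (cn q b R (Fin.cons 0 h : Fin (k + 1) → ℤ) J l D x : ℝ)

open Classical in
/-- the forms of the other shifts up to `s` -/
noncomputable def UR (q : ℕ) (b : ℤ) (V : Finset ℤ) (s : ℕ) : Finset (ℤ × ℤ) :=
  ((Icc (-(s : ℤ)) s).filter (fun t => IsCoprime (q : ℤ) (b + t) ∧ t ∉ V)).image
    (fun t : ℤ => ((q : ℤ), b + t))

theorem UR_mono (q : ℕ) (b : ℤ) (V : Finset ℤ) : Monotone (UR q b V) := by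
  classical
  intro s s' hss
  unfold UR
  apply image_subset_image
  apply filter_subset_filter
  apply Icc_subset_Icc
  · have : (s : ℤ) ≤ s' := by exact_mod_cast hss
    linarith
  · exact_mod_cast hss

/-- from the forms to the translates -/
theorem trans {q : ℕ} (hq : 1 ≤ q) {b : ℤ} {k : ℕ} {V : Finset ℤ} (hVq : ∀ x ∈ V, (q : ℤ) ∣ x)
    {y : Fin (k + 1) → ℤ} (hy : ∀ i, y i ∈ V) (hinj : Function.Injective y) {s C N : ℕ} {l R : ℕ}
    (hs : l + R + (y 0).natAbs ≤ s)
    (h : Pool.Agent.Y827.HN.AllP (UR q b V s) s C N (univ.image (fun i => ((q : ℤ), b + y i))))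
    (J : Finset (Fin (k + 1))) : ∃ d : ℕ, 1 ≤ d ∧ (d : ℝ) ≤ (Real.log N) ^ C ∧
      (N : ℝ) / (Real.log N) ^ C ≤ (cn q b R (Fin.cons 0 (fun j : Fin k => y j.succ - y 0) : Fin (k + 1) → ℤ) J
        l (q * d) (q * N + ((b + y 0).natAbs + R + q + 1)) : ℝ) + ((b + y 0).natAbs + R + q + 1 : ℕ) := by
  classical
  obtain ⟨d, hd1, hd2, hd3⟩ := h (J.image (fun i => ((q : ℤ), b + y i))) (by
    intro f hf
    obtain ⟨i, _, rfl⟩ := mem_image.1 hf
    exact mem_image.2 ⟨i, mem_univ _, rfl⟩)
  refine ⟨d, hd1, hd2, hd3.trans ?_⟩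
  set B : ℕ := (b + y 0).natAbs + R + q + 1 with hB
  have hy0 : (q : ℤ) ∣ y 0 := hVq _ (hy 0)
  have key : Pool.Agent.Y827.HN.cntX (J.image (fun i => ((q : ℤ), b + y i)))
      ((univ.image (fun i => ((q : ℤ), b + y i)) \ J.image (fun i => ((q : ℤ), b + y i))) ∪
        UR q b V s) s d N ≤ cn q b R (Fin.cons 0 (fun j : Fin k => y j.succ - y 0) : Fin (k + 1) → ℤ) J
        l (q * d) (q * N + B) + B := by
    unfold Pool.Agent.Y827.HN.cntX cn
    set X := (Icc (s + 1) N).filter (fun n : ℕ => ∀ j < s,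
      (∀ f ∈ J.image (fun i => ((q : ℤ), b + y i)), (f.1 * ((n + j * d : ℕ) : ℤ) + f.2).toNat.Prime) ∧
      ∀ f ∈ (univ.image (fun i => ((q : ℤ), b + y i)) \ J.image (fun i => ((q : ℤ), b + y i))) ∪
        UR q b V s, ¬ (f.1 * ((n + j * d : ℕ) : ℤ) + f.2).toNat.Prime) with hX
    have h4 : X ⊆ (Icc 1 B) ∪ (X.filter (fun n => B < n)) := by
      intro n hn
      rw [mem_union, mem_Icc, mem_filter]
      by_cases hnB : n ≤ B
      · refine Or.inl ⟨?_, hnB⟩
        have := (mem_Icc.1 (mem_filter.1 hn).1).1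
        omega
      · exact Or.inr ⟨hn, by omega⟩
    have h5 : (X.filter (fun n => B < n)).card ≤ ((Icc 1 (q * N + B)).filter (fun m : ℕ => ∀ j < l,
        Pa q b R (Fin.cons 0 (fun j : Fin k => y j.succ - y 0) : Fin (k + 1) → ℤ) J
          (m + j * (q * d)))).card := by
      have hgB : ∀ n : ℕ, B < n → (n : ℤ) ≤ (q : ℤ) * n ∧
          (R : ℤ) + q + 1 ≤ (q : ℤ) * n + (b + y 0) ∧ (q : ℤ) * n + (b + y 0) ≤ q * n + B := by
        intro n hn
        have h6 : (n : ℤ) ≤ (q : ℤ) * n := by
          have : n ≤ q * n := Nat.le_mul_of_pos_left _ hq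
          exact_mod_cast this
        have h7 : (B : ℤ) + 1 ≤ n := by exact_mod_cast hn
        have h8 : ((b + y 0).natAbs : ℤ) = |b + y 0| := Int.natCast_natAbs _
        have h9 : (B : ℤ) = |b + y 0| + R + q + 1 := by rw [← h8, hB]; push_cast; try ring
        have h10 : -|b + y 0| ≤ b + y 0 := neg_abs_le _
        have h11 : b + y 0 ≤ |b + y 0| := le_abs_self _
        have h12 : (0 : ℤ) ≤ q := Int.natCast_nonneg _
        have h13 : (0 : ℤ) ≤ R := Int.natCast_nonneg _
        refine ⟨h6, by linarith, by linarith⟩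
      apply card_le_card_of_injOn (fun n : ℕ => ((q : ℤ) * n + (b + y 0)).toNat)
      · intro n hn
        rw [mem_coe, mem_filter, hX, mem_filter, mem_Icc] at hn
        rw [mem_coe, mem_filter, mem_Icc]
        obtain ⟨⟨⟨hn1, hn2⟩, hn3⟩, hnB⟩ := hn
        obtain ⟨g1, g2, g3⟩ := hgB n hnB
        have hqZ : (0 : ℤ) ≤ q := Int.natCast_nonneg _
        have hRZ : (0 : ℤ) ≤ R := Int.natCast_nonneg _
        have hcast : ((((q : ℤ) * n + (b + y 0)).toNat : ℕ) : ℤ) = (q : ℤ) * n + (b + y 0) :=
          Int.toNat_of_nonneg (by linarith)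
        refine ⟨⟨by show 1 ≤ ((q : ℤ) * n + (b + y 0)).toNat; omega, ?_⟩, fun j hj => ?_⟩
        · show ((q : ℤ) * n + (b + y 0)).toNat ≤ q * N + B
          have h6 : (q : ℤ) * n ≤ q * N := mul_le_mul_of_nonneg_left (by exact_mod_cast hn2) hqZ
          have h7 : (q : ℤ) * n + (b + y 0) ≤ ((q * N + B : ℕ) : ℤ) := by push_cast; linarith
          omega
        · have hjs : j < s := by omega
          obtain ⟨h6, h7⟩ := hn3 j hjs
          have hm : ((((((q : ℤ) * n + (b + y 0)).toNat + j * (q * d) : ℕ)) : ℕ) : ℤ) =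
              (q : ℤ) * ((n + j * d : ℕ) : ℤ) + (b + y 0) := by
            push_cast
            rw [hcast]
            ring
          beta_reduce
          unfold Pa
          rw [hm]
          have hmod : (q : ℤ) * ((n + j * d : ℕ) : ℤ) + (b + y 0) ≡ b [ZMOD q] := by
            have h8 : (q : ℤ) ∣ (q : ℤ) * ((n + j * d : ℕ) : ℤ) + (b + y 0) - b := by
              have h9 : (q : ℤ) * ((n + j * d : ℕ) : ℤ) + (b + y 0) - b =
                (q : ℤ) * ((n + j * d : ℕ) : ℤ) + y 0 := by ring
              rw [h9]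
              exact dvd_add (dvd_mul_right _ _) hy0
            exact ((Int.modEq_iff_dvd).2 h8).symm
          refine ⟨hmod, fun i => ?_, ?_⟩
          · have hi : (q : ℤ) * ((n + j * d : ℕ) : ℤ) + (b + y 0) +
                (Fin.cons 0 (fun j : Fin k => y j.succ - y 0) : Fin (k + 1) → ℤ) i =
                (q : ℤ) * ((n + j * d : ℕ) : ℤ) + (b + y i) := by
              rcases Fin.eq_zero_or_eq_succ i with h0 | ⟨j', hj'⟩
              · subst h0
                rw [Fin.cons_zero]
                ring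
              · subst hj'
                rw [Fin.cons_succ]
                ring
            rw [hi]
            constructor
            · intro hpr
              by_contra hiJ
              refine h7 ((q : ℤ), b + y i) ?_ hpr
              rw [mem_union, Finset.mem_sdiff]
              refine Or.inl ⟨mem_image.2 ⟨i, mem_univ _, rfl⟩, fun hmem => hiJ ?_⟩
              obtain ⟨i', hi', heq⟩ := mem_image.1 hmem
              have h8 : b + y i' = b + y i := (Prod.mk.inj heq).2
              have h9 : i' = i := hinj (by linarith)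
              rwa [h9] at hi'
            · intro hiJ
              exact h6 ((q : ℤ), b + y i) (mem_image.2 ⟨i, hiJ, rfl⟩)
          · intro p hp hpR
            set w : ℤ := ((n + j * d : ℕ) : ℤ) with hw
            set t : ℤ := (p : ℤ) - q * w - b with ht
            have hpt : (p : ℤ) = q * w + (b + t) := by rw [ht]; ring
            have h8 := abs_le.1 hpR
            have h9 : |t| ≤ s := by
              have h10 : |t - y 0| ≤ R := by
                have h11 : t - y 0 = (p : ℤ) - (q * w + (b + y 0)) := by rw [ht]; ring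
                rw [h11]; exact hpR
              have h12 : |t| ≤ |t - y 0| + |y 0| := by
                have := abs_add_le (t - y 0) (y 0)
                simpa using this
              have h13 : ((y 0).natAbs : ℤ) = |y 0| := Int.natCast_natAbs _
              have h14 : ((l + R + (y 0).natAbs : ℕ) : ℤ) ≤ s := by exact_mod_cast hs
              push_cast at h14
              have h15 : (0 : ℤ) ≤ l := Int.natCast_nonneg _
              have h16 : |y 0| = ((y 0).natAbs : ℤ) := h13.symm
              rw [h16] at h12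
              push_cast at h12
              linarith
            have h9' := abs_le.1 h9
            by_cases htV : t ∈ V
            · have h10 := hVq t htV
              have h11 : (q : ℤ) ∣ (p : ℤ) - b := by
                have h12 : (p : ℤ) - b = q * w + t := by rw [ht]; ring
                rw [h12]
                exact dvd_add (dvd_mul_right _ _) h10
              exact ((Int.modEq_iff_dvd).2 h11).symm
            · by_cases hcop : IsCoprime (q : ℤ) (b + t)
              · exfalso
                refine h7 ((q : ℤ), b + t) ?_ ?_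
                · rw [mem_union]
                  refine Or.inr ?_
                  unfold UR
                  rw [mem_image]
                  exact ⟨t, mem_filter.2 ⟨mem_Icc.2 h9', hcop, htV⟩, rfl⟩
                · show ((q : ℤ) * w + (b + t)).toNat.Prime
                  rw [← hpt]
                  simpa using hp
              · exfalso
                rw [Int.isCoprime_iff_gcd_eq_one] at hcop
                obtain ⟨g, hg, hgd⟩ := Nat.exists_prime_and_dvd hcop
                have h10 : (g : ℤ) ∣ (q : ℤ) :=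
                  (Int.natCast_dvd_natCast.2 hgd).trans (Int.gcd_dvd_left _ _)
                have h11 : (g : ℤ) ∣ b + t :=
                  (Int.natCast_dvd_natCast.2 hgd).trans (Int.gcd_dvd_right _ _)
                have h12 : (g : ℤ) ∣ (p : ℤ) := by
                  rw [hpt]
                  exact dvd_add (h10.mul_right _) h11
                have h13 : g = p := (Nat.prime_dvd_prime_iff_eq hg hp).1 (Int.natCast_dvd_natCast.1 h12)
                have h14 : g ≤ q := Nat.le_of_dvd (by omega) (Int.natCast_dvd_natCast.1 h10)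
                have h15 : (n : ℤ) ≤ w := by rw [hw]; exact_mod_cast Nat.le_add_right n (j * d)
                have h16 : (q : ℤ) * n ≤ q * w := mul_le_mul_of_nonneg_left h15 hqZ
                have h17 : (p : ℤ) ≤ q := by
                  rw [← h13]; exact_mod_cast h14
                linarith [h8.1]
      · intro n hn n' hn' hnn
        rw [mem_coe, mem_filter] at hn hn'
        have h6 : ((q : ℤ) * n + (b + y 0)).toNat = ((q : ℤ) * n' + (b + y 0)).toNat := hnn
        obtain ⟨-, g2, -⟩ := hgB n hn.2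
        obtain ⟨-, g2', -⟩ := hgB n' hn'.2
        have h10 : (q : ℤ) * n = (q : ℤ) * n' := by omega
        have h12 : q * n = q * n' := by exact_mod_cast h10
        exact Nat.eq_of_mul_eq_mul_left hq h12
    have h6 := (card_le_card h4).trans (card_union_le _ _)
    rw [Nat.card_Icc] at h6
    have h7 : B + 1 - 1 = B := by omega
    rw [h7] at h6
    refine h6.trans ?_
    rw [add_comm]
    exact Nat.add_le_add_right h5 B
  exact_mod_cast key

theorem cleN (k : ℕ) (ε : ℝ) (hε : 0 < ε) (q : ℕ) (hq : 1 ≤ q) (b : ℤ) (hb : IsCoprime (q : ℤ) b) :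
    CLe k (GoodN q b) (5 / 18) ε := by
  classical
  obtain ⟨z, n₀, h⟩ := clqF k ε hε
  refine ⟨q * Nat.factorial z, n₀, Nat.mul_pos hq (Nat.factorial_pos z), ?_⟩
  intro V hV hn
  have hVq : ∀ x ∈ V, (q : ℤ) ∣ x := fun x hx => by
    have h1 := hV x hx
    push_cast at h1
    exact (dvd_mul_right _ _).trans h1
  set F : ℤ → ℤ × ℤ := fun x => ((q : ℤ), b + x) with hF
  have hFinj : Function.Injective F := by
    intro x y hxy
    have h1 : b + x = b + y := (Prod.mk.inj hxy).2
    linarith
  set V' : Finset (ℤ × ℤ) := V.image F with hV'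
  have hVc : V'.card = V.card := card_image_of_injective _ hFinj
  have hqZ : (0 : ℤ) < q := by exact_mod_cast hq
  have hcop : ∀ x ∈ V, IsCoprime (q : ℤ) (b + x) := by
    intro x hx
    obtain ⟨c, hc⟩ := hVq x hx
    rw [hc]
    exact hb.add_mul_left_right c
  obtain ⟨A, G, hAV, hAc, hAe, hG⟩ := h V' (by
    intro f hf
    obtain ⟨x, hx, rfl⟩ := mem_image.1 hf
    exact ⟨hqZ, hcop x hx⟩) (by
    intro p hpz hp
    by_cases hpq : p ∣ q
    · refine ⟨0, fun f hf hd => ?_⟩
      obtain ⟨x, hx, rfl⟩ := mem_image.1 hf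
      have h1 : (p : ℤ) ∣ b + x := by simpa [hF] using hd
      have h2 : (p : ℤ) ∣ q := Int.natCast_dvd_natCast.2 hpq
      obtain ⟨u, w, huw⟩ := hcop x hx
      have h3 : (p : ℤ) ∣ 1 := huw ▸ dvd_add (dvd_mul_of_dvd_right h2 u) (dvd_mul_of_dvd_right h1 w)
      exact (Nat.prime_iff_prime_int.1 hp).not_dvd_one h3
    · -- `q r + b ≡ 1`
      have hpZ : Prime (p : ℤ) := Nat.prime_iff_prime_int.1 hp
      have h1 : IsCoprime (q : ℤ) (p : ℤ) :=
        ((Prime.coprime_iff_not_dvd hpZ).2 (fun h => hpq (Int.natCast_dvd_natCast.1 h))).symm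
      obtain ⟨u, w, huw⟩ := h1
      refine ⟨u * (1 - b), fun f hf hd => ?_⟩
      obtain ⟨x, hx, rfl⟩ := mem_image.1 hf
      have h2 : (p : ℤ) ∣ x := by
        have h3 := hV x hx
        have h4 : (p : ℤ) ∣ ((q * Nat.factorial z : ℕ) : ℤ) :=
          Int.natCast_dvd_natCast.2 (Dvd.dvd.mul_left ((Nat.Prime.dvd_factorial hp).2 hpz) q)
        exact h4.trans h3
      have h3 : (F x).1 * (u * (1 - b)) + (F x).2 = 1 + (x - (p : ℤ) * (w * (1 - b))) := by
        simp only [hF]
        have h4 : u * (q : ℤ) = 1 - w * p := by linarith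
        calc (q : ℤ) * (u * (1 - b)) + (b + x) = (u * q) * (1 - b) + (b + x) := by ring
          _ = (1 - w * p) * (1 - b) + (b + x) := by rw [h4]
          _ = _ := by ring
      rw [h3] at hd
      have h5 : (p : ℤ) ∣ x - (p : ℤ) * (w * (1 - b)) := dvd_sub h2 (dvd_mul_right _ _)
      exact hpZ.not_dvd_one ((dvd_add_left h5).1 hd)) (by
    rw [hVc]; exact hn) (UR q b V) (UR_mono q b V) (by
    intro s u hu
    unfold UR at hu
    obtain ⟨t, ht, rfl⟩ := mem_image.1 hu
    obtain ⟨-, ht2, ht3⟩ := mem_filter.1 ht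
    refine ⟨hqZ, ht2, fun hmem => ht3 ?_⟩
    obtain ⟨x, hx, heq⟩ := mem_image.1 hmem
    have h1 : b + x = b + t := (Prod.mk.inj heq).2
    have h2 : x = t := by linarith
    rwa [← h2])
  set A' : Finset ℤ := V.filter (fun x => F x ∈ A) with hA'
  have hA'V : A' ⊆ V := filter_subset _ _
  have hA'A : A'.image F = A := by
    ext f
    constructor
    · intro hf
      obtain ⟨x, hx, rfl⟩ := mem_image.1 hf
      exact (mem_filter.1 hx).2
    · intro hf
      obtain ⟨x, hx, rfl⟩ := mem_image.1 (hAV hf)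
      exact mem_image.2 ⟨x, mem_filter.2 ⟨hx, hf⟩, rfl⟩
  have hA'c : A'.card = A.card := by
    rw [← hA'A]
    exact (card_image_of_injective _ hFinj).symm
  refine ⟨A', hA'V, ?_, ?_⟩
  · rw [hA'c, ← hVc]
    exact hAc
  · have h5 : Set.ncard {y : Fin (k + 1) → ℤ | (∀ i, y i ∈ A') ∧
        Function.Injective y ∧ ¬ GoodN q b (fun j => y j.succ - y 0)} ≤
        (exc A (fun f => f ∈ G)).card := by
      rw [← Set.ncard_coe_finset]
      refine Set.ncard_le_ncard_of_injOn (fun y i => F (y i)) ?_ ?_ (Set.toFinite _)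
      · rintro y ⟨hy1, hy2, hy3⟩
        rw [mem_coe, mem_exc]
        refine ⟨fun i => (mem_filter.1 (hy1 i)).2, fun i i' hii => hy2 (hFinj hii),
          fun hyG => hy3 ?_⟩
        intro l R
        obtain ⟨C, hC⟩ := hG (l + R + (y 0).natAbs)
        set B : ℕ := (b + y 0).natAbs + R + q + 1 with hB
        refine ⟨C + 1, ?_⟩
        have htend : Tendsto (fun N : ℕ => q * N + B) atTop atTop := by
          refine tendsto_atTop_mono (fun N => ?_) tendsto_id
          show N ≤ q * N + B
          nlinarith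
        have hlog : Tendsto (fun N : ℕ => Real.log (N : ℝ)) atTop atTop :=
          Real.tendsto_log_atTop.comp tendsto_natCast_atTop_atTop
        refine htend.frequently (((hC.and_eventually (Pool.Agent.N694.OB.growthA q B C)).and_eventually
          ((hlog.eventually_ge_atTop q).and (eventually_ge_atTop 3))).mono ?_)
        rintro N ⟨⟨hN, hgr⟩, hNl, hN3⟩ J
        obtain ⟨d, hd1, hd2, hd3⟩ := trans hq hVq (fun i => hA'V (hy1 i)) hy2
          (l := l) (R := R) le_rfl (hN _ hyG) J
        have hNN : N ≤ q * N + B := by nlinarith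
        have hN0 : (0 : ℝ) < N := by exact_mod_cast (by omega : 0 < N)
        have hmono : Real.log N ≤ Real.log ((q * N + B : ℕ) : ℝ) :=
          Real.log_le_log hN0 (by exact_mod_cast hNN)
        have hqR : (1 : ℝ) ≤ q := by exact_mod_cast hq
        refine ⟨q * d, Nat.mul_pos hq hd1, ?_, ?_⟩
        · push_cast
          rw [pow_succ, mul_comm]
          apply mul_le_mul (hd2.trans (pow_le_pow_left₀ (by linarith) _ C)) _ (by positivity) (by
            have : (0 : ℝ) ≤ Real.log ((q * N + B : ℕ) : ℝ) := by linarith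
            push_cast at this
            positivity)
          · have := hmono; push_cast at this; exact this
          · have := hNl.trans hmono; push_cast at this; exact this
        · have h6 : (cn q b R (Fin.cons 0 (fun j : Fin k => y j.succ - y 0) : Fin (k + 1) → ℤ) J
            l (q * d) (q * N + B) : ℝ) + (B : ℕ) ≥ (N : ℝ) / (Real.log N) ^ C := hd3
          linarith
      · intro y hy y' hy' hyy
        funext i
        exact hFinj (congrFun hyy i)
    calc (Set.ncard {y : Fin (k + 1) → ℤ | (∀ i, y i ∈ A') ∧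
        Function.Injective y ∧ ¬ GoodN q b (fun j => y j.succ - y 0)} : ℝ) ≤
        ((exc A (fun f => f ∈ G)).card : ℝ) := by exact_mod_cast h5
      _ ≤ ε * (V'.card : ℝ) ^ (k + 1) := hAe
      _ = ε * (V.card : ℝ) ^ (k + 1) := by rw [hVc]

/-- **Boxes of shifts, along narrow progressions.** -/
theorem main (k : ℕ) (hk : 1 ≤ k) (ε : ℝ) (hε : 0 < ε) (q : ℕ) (hq : 1 ≤ q) (b : ℤ)
    (hb : IsCoprime (q : ℤ) b) : ∃ M : ℕ, 1 ≤ M ∧ q ∣ M ∧ ∀ N : ℕ, 1 ≤ N → M ∣ N → ∃ L : ℕ,
      ∀ T : ℕ, L ≤ T → ∀ c : Fin k → ℤ, (∀ j, (M : ℤ) ∣ c j) →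
        ((k + 1) * (5 / 18 : ℝ) ^ k - ε) * (T : ℝ) ^ k ≤ (Pool.Agent.N646.BX.cnt (GoodN q b) c N T : ℝ) := by
  obtain ⟨ε', hε', h⟩ := box_main k hk (5 / 18) (by norm_num) (by norm_num) ε hε
  obtain ⟨M, hM, h1⟩ := h _ (cleN k ε' hε' q hq b hb)
  refine ⟨M * q, Nat.mul_pos hM hq, dvd_mul_left _ _, fun N hN hMN => ?_⟩
  obtain ⟨L, h2⟩ := h1 N hN ((dvd_mul_right _ _).trans hMN)
  refine ⟨L, fun T hT c hc => h2 T hT c (fun j => ?_)⟩
  have h3 := hc j
  push_cast at h3
  exact (dvd_mul_right _ _).trans h3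

end Pool.Agent.N694.NB
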